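import Pool.Agent.V5helper47.Ind.Num

/-!
# Indivisible values `L(χ, 0)` for odd characters of prime modulus: the exponent `2/3`

There is an absolute constant `c > 0` such that for all primes `p` and `q`, `q ≠ 2`, with
`p` not dividing `q (q - 1)`, and every maximal ideal `P` of the algebraic integers above `p`, at
least `c q ^ (2/3) / log q` of the odd characters `χ` modulo `q` have `L(χ, 0) = - (1/q) ∑ a χ(a)`
of `P`-adic valuation zero.

Method.  The number in question is at least the dimension, minus one, of the span over `O / P` of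
the functions `x ↦ (u x mod q) mod p` on the units modulo `q`, where `u` runs through the units.
This span contains the functions `x ↦ 1` if `(a x mod q) + (x mod q) ≥ q`, and `0` otherwise. If
`a = (m - v) / v` modulo `q`, where `v < m < q ^ (1/2)` are coprime, then this function vanishes for
`1 ≤ x < b` and not for `x = b`, where `b = (q + v r) / m` with `0 < r < m`. This gives a triangular
system whose size is the number of the different `b`.
-/

namespace Pool.Agent.Results.MP_53226a_nt.TwoThirds

/-- There is `c > 0` such that for all primes `p`, `q` with `q ≠ 2` and `p ∤ q (q - 1)` at least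
`c q ^ (2/3) / log q` odd characters `χ` modulo `q` have `L(χ, 0) = - (1/q) ∑ a χ(a)` a unit at a
fixed prime above `p` of the algebraic integers. -/
theorem result : ∃ c : ℝ, 0 < c ∧ ∀ p q : ℕ, p.Prime → q.Prime → q ≠ 2 → ¬ p ∣ q * (q - 1) →
    ∀ P : Ideal (integralClosure ℤ ℂ), P.IsMaximal → ((p : integralClosure ℤ ℂ) ∈ P) →
      c * (q : ℝ) ^ (2 / 3 : ℝ) / Real.log q ≤
        (({χ : DirichletCharacter ℂ q |
            χ (-1 : ZMod q) = -1 ∧
            ∃ a b : integralClosure ℤ ℂ, a ∉ P ∧ b ∉ P ∧
              (b : ℂ) * (-(1 / (q : ℂ)) *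
                ∑ k ∈ Finset.Ico 1 q, (k : ℂ) * χ (k : ZMod q)) = (a : ℂ)}
          : Set (DirichletCharacter ℂ q)).ncard : ℝ) := by
  obtain ⟨c, hc, h⟩ := Pool.Agent.V5helper47.Ind.BB_ge'
  refine ⟨c, hc, ?_⟩
  intro p q hp hq hq2 hpq P hP hpP
  have : Fact q.Prime := ⟨hq⟩
  have h2 := Pool.Agent.V5helper47.Ind.card_BB_le hq2 hp hpq hP hpP
  exact (h q hq hq2).trans (Nat.cast_le.mpr h2)

end Pool.Agent.Results.MP_53226a_nt.TwoThirds
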